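import Pool.Agent.K1H42.HP.Stm

/-!
# (CROSS) product bound for cross-intersecting families through / avoiding a point
-/

namespace Pool.Agent.K1H87.HP

open Module Finset
open Pool.Agent.K1H42.HP

section abstractlemmas

lemma gram {ι α : Type*} (J : Finset ι) (Ω : Finset α) (e : α → ι → ℝ) (x : α → ℝ) :
    ∑ j ∈ J, (∑ r ∈ Ω, x r * e r j) ^ 2
      = ∑ r ∈ Ω, ∑ r' ∈ Ω, x r * x r' * ∑ j ∈ J, e r j * e r' j := by
  have h1 : ∀ j ∈ J, (∑ r ∈ Ω, x r * e r j) ^ 2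
      = ∑ r ∈ Ω, ∑ r' ∈ Ω, x r * x r' * (e r j * e r' j) := by
    intro j _
    rw [sq, Finset.sum_mul_sum]
    refine Finset.sum_congr rfl fun r _ => Finset.sum_congr rfl fun r' _ => by ring
  rw [Finset.sum_congr rfl h1, Finset.sum_comm]
  refine Finset.sum_congr rfl fun r _ => ?_
  rw [Finset.sum_comm]
  refine Finset.sum_congr rfl fun r' _ => ?_
  rw [Finset.mul_sum]

lemma sum_sub_sq {ι : Type*} (B J : Finset ι) (hB : B ⊆ J) (t : ι → ℝ) :
    (∑ j ∈ B, t j) ^ 2 ≤ (B.card : ℝ) * ∑ j ∈ J, t j ^ 2 := by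
  refine (sq_sum_le_card_mul_sum_sq).trans ?_
  refine mul_le_mul_of_nonneg_left ?_ (Nat.cast_nonneg _)
  exact Finset.sum_le_sum_of_subset_of_nonneg hB fun j _ _ => sq_nonneg _

open Classical in
lemma psd_fiber {α β : Type*} (Ω : Finset α) (f : α → β) (x : α → ℝ) :
    0 ≤ ∑ r ∈ Ω, ∑ r' ∈ Ω, x r * x r' * (if f r = f r' then 1 else 0) := by
  have h : ∑ r ∈ Ω, ∑ r' ∈ Ω, x r * x r' * (if f r = f r' then (1 : ℝ) else 0)
      = ∑ b ∈ Ω.image f, (∑ r ∈ Ω, x r * (if f r = b then (1 : ℝ) else 0)) ^ 2 := by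
    rw [gram]
    refine Finset.sum_congr rfl fun r hr => Finset.sum_congr rfl fun r' hr' => ?_
    congr 1
    have h1 : ∀ b, (if f r = b then (1 : ℝ) else 0) * (if f r' = b then (1 : ℝ) else 0)
        = if f r = b then (if f r = f r' then 1 else 0) else 0 := by
      intro b
      by_cases hb : f r = b
      · subst hb
        simp [eq_comm]
      · simp [hb]
    simp only [h1]
    rw [Finset.sum_ite_eq, if_pos (Finset.mem_image_of_mem f hr)]
  rw [h]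
  exact Finset.sum_nonneg fun b _ => sq_nonneg _

/-- the abstract argument -/
lemma cross_abs {ι α : Type*} (𝓐 𝓖 J J' : Finset ι) (Ω : Finset α) (e : α → ι → ℝ)
    (hA : 𝓐 ⊆ J) (hG : 𝓖 ⊆ J') (c₁ c₂ sA sG : ℝ) (hc₁ : 0 ≤ c₁) (hc₂ : 0 ≤ c₂)
    (h₁ : ∀ x : α → ℝ, ∑ r ∈ Ω, x r = 0 →
      ∑ j ∈ J, (∑ r ∈ Ω, x r * e r j) ^ 2 ≤ c₁ * ∑ r ∈ Ω, x r ^ 2)
    (h₂ : ∀ x : α → ℝ, ∑ r ∈ Ω, x r = 0 →
      ∑ j ∈ J', (∑ r ∈ Ω, x r * e r j) ^ 2 ≤ c₂ * ∑ r ∈ Ω, x r ^ 2)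
    (hsA : ∀ j ∈ 𝓐, ∑ r ∈ Ω, e r j = sA) (hsG : ∀ j ∈ 𝓖, ∑ r ∈ Ω, e r j = sG)
    (hN : 2 * sA * sG ≤ (Ω.card : ℝ)) (hN0 : 0 < (Ω.card : ℝ))
    (hint : ∀ A ∈ 𝓐, ∀ G ∈ 𝓖, 1 ≤ ∑ r ∈ Ω, e r A * e r G) :
    (𝓐.card : ℝ) * (𝓖.card : ℝ) ≤ 4 * c₁ * c₂ := by
  classical
  set N : ℝ := (Ω.card : ℝ) with hNdef
  set a : α → ℝ := fun r => ∑ A ∈ 𝓐, e r A with ha
  set g : α → ℝ := fun r => ∑ G ∈ 𝓖, e r G with hg
  have hsum_a : ∑ r ∈ Ω, a r = (𝓐.card : ℝ) * sA := by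
    simp only [ha]
    rw [Finset.sum_comm, Finset.sum_congr rfl hsA]
    simp
  have hsum_g : ∑ r ∈ Ω, g r = (𝓖.card : ℝ) * sG := by
    simp only [hg]
    rw [Finset.sum_comm, Finset.sum_congr rfl hsG]
    simp
  set ab : ℝ := (𝓐.card : ℝ) * sA / N with hab
  set x : α → ℝ := fun r => a r - ab with hx
  have hx0 : ∑ r ∈ Ω, x r = 0 := by
    simp only [hx]
    rw [Finset.sum_sub_distrib, hsum_a]
    simp only [Finset.sum_const, nsmul_eq_mul]
    rw [← hNdef, hab]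
    field_simp
    ring
  set S : ℝ := ∑ r ∈ Ω, x r ^ 2 with hS
  have hS0 : 0 ≤ S := Finset.sum_nonneg fun r _ => sq_nonneg _
  have hS1 : S = ∑ A ∈ 𝓐, ∑ r ∈ Ω, x r * e r A := by
    rw [Finset.sum_comm]
    have h1 : ∀ r ∈ Ω, ∑ A ∈ 𝓐, x r * e r A = x r ^ 2 + ab * x r := by
      intro r _
      rw [← Finset.mul_sum]
      have : ∑ A ∈ 𝓐, e r A = x r + ab := by simp [hx, ha]
      rw [this]; ring
    rw [Finset.sum_congr rfl h1, Finset.sum_add_distrib, ← Finset.mul_sum, hx0]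
    simp [hS]
  have hS2 : S ^ 2 ≤ (𝓐.card : ℝ) * (c₁ * S) := by
    calc S ^ 2 = (∑ A ∈ 𝓐, ∑ r ∈ Ω, x r * e r A) ^ 2 := by rw [← hS1]
      _ ≤ (𝓐.card : ℝ) * ∑ j ∈ J, (∑ r ∈ Ω, x r * e r j) ^ 2 := sum_sub_sq _ _ hA _
      _ ≤ _ := mul_le_mul_of_nonneg_left (h₁ x hx0) (Nat.cast_nonneg _)
  have hS3 : S ≤ (𝓐.card : ℝ) * c₁ := by
    rcases hS0.eq_or_lt with h | h
    · rw [← h]; positivity
    · have : S * S ≤ ((𝓐.card : ℝ) * c₁) * S := by nlinarith
      exact le_of_mul_le_mul_right this h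
  set T : ℝ := ∑ G ∈ 𝓖, ∑ r ∈ Ω, x r * e r G with hT
  have hT2 : T ^ 2 ≤ (𝓖.card : ℝ) * (c₂ * S) :=
    (sum_sub_sq _ _ hG _).trans (mul_le_mul_of_nonneg_left (h₂ x hx0) (Nat.cast_nonneg _))
  have hT1 : T = ∑ r ∈ Ω, a r * g r - ab * ∑ r ∈ Ω, g r := by
    rw [hT, Finset.sum_comm, Finset.mul_sum, ← Finset.sum_sub_distrib]
    refine Finset.sum_congr rfl fun r _ => ?_
    rw [← Finset.mul_sum]
    simp only [hx, hg]
    ring
  have hag : (𝓐.card : ℝ) * (𝓖.card : ℝ) ≤ ∑ r ∈ Ω, a r * g r := by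
    have h1 : ∑ r ∈ Ω, a r * g r = ∑ A ∈ 𝓐, ∑ G ∈ 𝓖, ∑ r ∈ Ω, e r A * e r G := by
      simp only [ha, hg]
      have h2 : ∀ r ∈ Ω, (∑ A ∈ 𝓐, e r A) * (∑ G ∈ 𝓖, e r G)
          = ∑ A ∈ 𝓐, ∑ G ∈ 𝓖, e r A * e r G := fun r _ => Finset.sum_mul_sum _ _ _ _
      rw [Finset.sum_congr rfl h2, Finset.sum_comm]
      refine Finset.sum_congr rfl fun A _ => ?_
      rw [Finset.sum_comm]
    rw [h1]
    calc (𝓐.card : ℝ) * (𝓖.card : ℝ) = ∑ A ∈ 𝓐, ∑ G ∈ 𝓖, (1 : ℝ) := by simp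
      _ ≤ _ := Finset.sum_le_sum fun A hA' => Finset.sum_le_sum fun G hG' => hint A hA' G hG'
  have habg : ab * ∑ r ∈ Ω, g r ≤ (𝓐.card : ℝ) * (𝓖.card : ℝ) / 2 := by
    rw [hsum_g, hab, div_mul_eq_mul_div, div_le_div_iff₀ hN0 (by norm_num)]
    have hp : 0 ≤ (𝓐.card : ℝ) * (𝓖.card : ℝ) := by positivity
    nlinarith [mul_le_mul_of_nonneg_left hN hp]
  set W : ℝ := (𝓐.card : ℝ) * (𝓖.card : ℝ) with hW
  have hW0 : 0 ≤ W := by positivity
  have hTW : W / 2 ≤ T := by rw [hT1]; linarith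
  have hfin : (W / 2) ^ 2 ≤ (c₁ * c₂) * W := by
    calc (W / 2) ^ 2 ≤ T ^ 2 := by
          apply pow_le_pow_left₀ (by linarith) hTW
      _ ≤ (𝓖.card : ℝ) * (c₂ * S) := hT2
      _ ≤ (𝓖.card : ℝ) * (c₂ * ((𝓐.card : ℝ) * c₁)) := by gcongr
      _ = (c₁ * c₂) * W := by rw [hW]; ring
  rcases hW0.eq_or_lt with h | h
  · rw [← h]; positivity
  · have : W * W ≤ (4 * c₁ * c₂) * W := by nlinarith
    exact le_of_mul_le_mul_right this h

end abstractlemmas

section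
variable {F V : Type} [Field F] [AddCommGroup V] [Module F V] [Finite V]

lemma finrank_sup_pt {S R : Submodule F V} (hR : finrank F R = 1) (h : ¬ R ≤ S) :
    finrank F ↥(S ⊔ R) = finrank F S + 1 := by
  have h1 := Submodule.finrank_sup_add_finrank_inf_eq S R
  have h2 : finrank F ↥(S ⊓ R) = 0 := by
    by_contra h0
    have h3 : finrank F ↥(S ⊓ R) ≤ finrank F R := Submodule.finrank_mono inf_le_right
    have h4 : S ⊓ R = R := Submodule.eq_of_le_of_finrank_eq inf_le_right (by omega)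
    exact h (h4 ▸ inf_le_left)
  omega

lemma pt_eq_of_le {R R' : Submodule F V} (hR : finrank F R = 1) (hR' : finrank F R' = 1)
    (h : R ≤ R') : R = R' := Submodule.eq_of_le_of_finrank_eq h (by omega)

lemma finrank_sup_two {R R' : Submodule F V} (hR : finrank F R = 1) (hR' : finrank F R' = 1)
    (h : R ≠ R') : finrank F ↥(R ⊔ R') = 2 := by
  rw [finrank_sup_pt hR' (fun h' => h (pt_eq_of_le hR' hR h').symm), hR]

lemma le_sup_iff {P R R' : Submodule F V} (hP : finrank F P = 1) (hR : finrank F R = 1)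
    (hR' : finrank F R' = 1) (h : R ≠ P) (h' : R' ≠ P) :
    P ⊔ R = P ⊔ R' ↔ R' ≤ P ⊔ R := by
  constructor
  · intro he
    rw [he]; exact le_sup_right
  · intro hle
    symm
    apply Submodule.eq_of_le_of_finrank_eq (sup_le le_sup_left hle)
    rw [finrank_sup_two hP hR h.symm, finrank_sup_two hP hR' h'.symm]


lemma exists_pt_le {W : Submodule F V} (h : W ≠ ⊥) :
    ∃ R : Submodule F V, finrank F R = 1 ∧ R ≤ W := by
  obtain ⟨x, hx, hx0⟩ := Submodule.exists_mem_ne_zero_of_ne_bot h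
  exact ⟨Submodule.span F {x}, finrank_span_singleton hx0,
    by rw [Submodule.span_singleton_le_iff_mem]; exact hx⟩

/-- the points other than `P` -/
noncomputable def Om (P : Submodule F V) : Finset (Submodule F V) := by
  classical exact (Gr F V 1).filter (fun R => R ≠ P)

lemma mem_Om {P R : Submodule F V} : R ∈ Om P ↔ finrank F R = 1 ∧ R ≠ P := by
  classical
  simp [Om]

open Classical in
/-- indicator of `R ≤ A` -/
noncomputable def ei (R A : Submodule F V) : ℝ := if R ≤ A then 1 else 0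

open Classical in
/-- indicator of `P ⊔ R = P ⊔ R'` -/
noncomputable def ej (P R R' : Submodule F V) : ℝ := if P ⊔ R = P ⊔ R' then 1 else 0

lemma ei_mul (R R' A : Submodule F V) : ei R A * ei R' A = ei (R ⊔ R') A := by
  classical
  unfold ei
  by_cases h1 : R ≤ A <;> by_cases h2 : R' ≤ A <;> simp [h1, h2]

lemma sum_ei (J : Finset (Submodule F V)) (W : Submodule F V) :
    ∑ A ∈ J, ei W A = dg J W := by
  classical
  unfold ei dg above
  rw [Finset.sum_boole]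

lemma sum_ei_above (𝓕 : Finset (Submodule F V)) (P W : Submodule F V) :
    ∑ A ∈ above 𝓕 P, ei W A = dg 𝓕 (P ⊔ W) := by
  classical
  rw [sum_ei]
  unfold dg
  congr 2
  ext A
  simp [and_assoc]

lemma sum_ei_avoid (𝓕 : Finset (Submodule F V)) (P W : Submodule F V) :
    ∑ A ∈ avoid 𝓕 P, ei W A = dg 𝓕 W - dg 𝓕 (P ⊔ W) := by
  classical
  rw [← sum_ei_above, ← sum_ei 𝓕 W]
  unfold avoid above
  rw [eq_sub_iff_add_eq', Finset.sum_filter_add_sum_filter_not]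

lemma pts_card_sub {q : ℕ} [Fintype F] (hP' : S_PTS) (hq : Fintype.card F = q)
    (P A : Submodule F V) (hP : finrank F P = 1) (hPA : P ≤ A) :
    ∑ R ∈ Om P, ei R A = br q (finrank F A) - 1 := by
  classical
  have h1 : ∑ R ∈ Om P, ei R A = (((pts A).erase P).card : ℝ) := by
    unfold ei
    rw [Finset.sum_boole]
    congr 2
    ext R
    simp only [Finset.mem_filter, mem_Om, Finset.mem_erase, mem_pts]
    tauto
  rw [h1, Finset.card_erase_of_mem (by simp [hP, hPA])]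
  have h2 : 1 ≤ (pts A).card := Finset.card_pos.2 ⟨P, by simp [hP, hPA]⟩
  rw [Nat.cast_sub h2, hP' F V q hq A]
  simp

lemma pts_card_full {q : ℕ} [Fintype F] (hP' : S_PTS) (hq : Fintype.card F = q)
    (P A : Submodule F V) (hPA : ¬ P ≤ A) :
    ∑ R ∈ Om P, ei R A = br q (finrank F A) := by
  classical
  rw [← hP' F V q hq A]
  unfold ei
  rw [Finset.sum_boole]
  congr 2
  ext R
  simp only [Finset.mem_filter, mem_Om, mem_pts]
  constructor
  · rintro ⟨⟨h1, _⟩, h2⟩; exact ⟨h1, h2⟩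
  · rintro ⟨h1, h2⟩
    refine ⟨⟨h1, ?_⟩, h2⟩
    rintro rfl
    exact hPA h2

end

lemma arith {q n k : ℕ} (hq : 2 ≤ q) (hn : 2 * k + 1 ≤ n) (hk : 1 ≤ k)
    (hb : ∀ m, br q m * ((q : ℝ) - 1) = (q : ℝ) ^ m - 1) :
    2 * (br q k - 1) * br q k ≤ br q n - 1 := by
  have hq' : (2 : ℝ) ≤ q := by exact_mod_cast hq
  have hq1 : 0 < (q : ℝ) - 1 := by linarith
  have hm : (q : ℝ) ^ (2 * k + 1) ≤ (q : ℝ) ^ n := pow_le_pow_right₀ (by linarith) hn
  set Q : ℝ := (q : ℝ) ^ k with hQ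
  have hQ1 : (q : ℝ) ≤ Q := by
    calc (q : ℝ) = (q : ℝ) ^ 1 := (pow_one _).symm
      _ ≤ _ := pow_le_pow_right₀ (by linarith) hk
  have h1 := hb k
  have h2 := hb n
  have h3 : (q : ℝ) ^ (2 * k + 1) = q * Q ^ 2 := by rw [hQ]; ring
  rw [h3] at hm
  have key : 2 * (Q - q) * (Q - 1) ≤ ((q : ℝ) ^ n - q) * (q - 1) := by
    have h4 : ((q : ℝ) * Q ^ 2 - q) * 1 ≤ ((q : ℝ) ^ n - q) * (q - 1) := by
      apply mul_le_mul (by linarith) (by linarith) (by norm_num)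
      nlinarith [sq_nonneg Q]
    have h5 : 2 * Q ^ 2 ≤ q * Q ^ 2 := by nlinarith [sq_nonneg Q]
    nlinarith
  have h6 : (2 * (br q k - 1) * br q k) * ((q - 1 : ℝ) * (q - 1))
      = 2 * (Q - q) * (Q - 1) := by
    have : (br q k - 1) * ((q : ℝ) - 1) = Q - q := by rw [sub_mul, h1]; ring
    calc (2 * (br q k - 1) * br q k) * ((q - 1 : ℝ) * (q - 1))
        = 2 * ((br q k - 1) * ((q : ℝ) - 1)) * (br q k * ((q : ℝ) - 1)) := by ring
      _ = _ := by rw [this, h1]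
  have h7 : (br q n - 1) * ((q - 1 : ℝ) * (q - 1)) = ((q : ℝ) ^ n - q) * (q - 1) := by
    have : (br q n - 1) * ((q : ℝ) - 1) = (q : ℝ) ^ n - q := by rw [sub_mul, h2]; ring
    rw [← mul_assoc, this]
  have h8 : 0 < ((q - 1 : ℝ) * (q - 1)) := by positivity
  refine le_of_mul_le_mul_right ?_ h8
  rw [h6, h7]; exact key

theorem t_CROSS (hC : S_COUNT) (hP : S_PTS) (hN : S_NUM) : S_CROSS := by
  classical
  intro F _ _ V _ _ _ q n k hq hn hnk hk P hPm 𝓐 h𝓐 𝓖 h𝓖 hPA hPG hcr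
  rw [mem_Gr] at hPm
  have hq2 : 2 ≤ q := by rw [← hq]; exact Fintype.one_lt_card
  obtain ⟨hD0, -, hDmono, -, hbr1, -, hbrs⟩ := hN q n k hq2 (by omega) (by omega)
  set D1 := D q n k 1 with hD1
  set D2 := D q n k 2 with hD2
  set D3 := D q n k 3 with hD3
  have hp1 : 0 < D1 := hD0 1
  have hp2 : 0 < D2 := hD0 2
  have hp3 : 0 < D3 := hD0 3
  have hqr : (2 : ℝ) ≤ q := by exact_mod_cast hq2
  have h32 : D3 ≤ D2 := by
    have h1 := hDmono 2 3 (by norm_num) hk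
    have h2 : (1 : ℝ) ≤ (q : ℝ) ^ ((3 - 2) * (n - k)) := one_le_pow₀ (by linarith)
    nlinarith
  have hbr2 : br q 2 = 1 + q := by simp [br, Finset.sum_range_succ]
  -- degrees
  have hdg : ∀ W : Submodule F V, finrank F W ≤ k → dg (Gr F V k) W = D q n k (finrank F W) :=
    fun W hW => hC F V q n k hq hn (by omega) W hW
  have hr1 : ∀ r ∈ Om P, ∀ r' ∈ Om P,
      dg (Gr F V k) (P ⊔ (r ⊔ r')) = D3 + (D2 - D3) * ej P r r' := by
    intro r hr r' hr'
    rw [mem_Om] at hr hr'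
    rw [← sup_assoc]
    by_cases h : P ⊔ r = P ⊔ r'
    · have h1 : r' ≤ P ⊔ r := by rw [h]; exact le_sup_right
      have h2 : P ⊔ r ⊔ r' = P ⊔ r := sup_eq_left.2 h1
      have h3 : finrank F ↥(P ⊔ r) = 2 := finrank_sup_two hPm hr.1 hr.2.symm
      rw [h2, hdg _ (by omega), h3]
      simp [ej, h, hD2]
    · have h1 : ¬ r' ≤ P ⊔ r := fun h' => h ((le_sup_iff hPm hr.1 hr'.1 hr.2 hr'.2).2 h')
      have h3 : finrank F ↥(P ⊔ r) = 2 := finrank_sup_two hPm hr.1 hr.2.symm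
      have h4 : finrank F ↥(P ⊔ r ⊔ r') = 3 := by rw [finrank_sup_pt hr'.1 h1, h3]
      rw [hdg _ (by omega), h4]
      simp [ej, h, hD3]
  have hr2 : ∀ r ∈ Om P, ∀ r' ∈ Om P,
      dg (Gr F V k) (r ⊔ r') - dg (Gr F V k) (P ⊔ (r ⊔ r'))
        = (D1 - D2) * (if r = r' then 1 else 0) + (D2 - D3) * (1 - ej P r r') := by
    intro r hr r' hr'
    rw [hr1 r hr r' hr']
    rw [mem_Om] at hr hr'
    by_cases h : r = r'
    · subst h
      rw [sup_idem, hdg _ (by omega), hr.1]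
      simp [ej, hD1]
    · have h3 : finrank F ↥(r ⊔ r') = 2 := finrank_sup_two hr.1 hr'.1 h
      rw [hdg _ (by omega), h3, if_neg h]
      ring
  have hBsum : ∀ r ∈ Om P, ∑ r' ∈ Om P, ej P r r' = q := by
    intro r hr
    rw [mem_Om] at hr
    have h3 : finrank F ↥(P ⊔ r) = 2 := finrank_sup_two hPm hr.1 hr.2.symm
    have h1 : ∑ r' ∈ Om P, ej P r r' = ∑ r' ∈ Om P, ei r' (P ⊔ r) := by
      refine Finset.sum_congr rfl fun r' hr' => ?_
      rw [mem_Om] at hr'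
      unfold ej ei
      simp only [le_sup_iff hPm hr.1 hr'.1 hr.2 hr'.2]
    rw [h1, pts_card_sub hP hq P _ hPm le_sup_left, h3, hbr2]
    ring
  have hBsymm : ∀ r r', ej P r r' = ej P r' r := by
    intro r r'; unfold ej; simp only [eq_comm]
  have hB0 : ∀ r r', 0 ≤ ej P r r' := by
    intro r r'; unfold ej; split_ifs <;> norm_num
  have hBpsd : ∀ x : Submodule F V → ℝ,
      0 ≤ ∑ r ∈ Om P, ∑ r' ∈ Om P, x r * x r' * ej P r r' := by
    intro x
    have := psd_fiber (Om P) (fun r => P ⊔ r) x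
    unfold ej
    convert this
  have hBup : ∀ x : Submodule F V → ℝ,
      ∑ r ∈ Om P, ∑ r' ∈ Om P, x r * x r' * ej P r r' ≤ q * ∑ r ∈ Om P, x r ^ 2 := by
    intro x
    have h1 : ∑ r ∈ Om P, ∑ r' ∈ Om P, x r * x r' * ej P r r'
        ≤ ∑ r ∈ Om P, ∑ r' ∈ Om P, (x r ^ 2 / 2 * ej P r r' + x r' ^ 2 / 2 * ej P r' r) := by
      refine Finset.sum_le_sum fun r _ => Finset.sum_le_sum fun r' _ => ?_
      rw [hBsymm r' r]
      nlinarith [hB0 r r', sq_nonneg (x r - x r'),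
        mul_nonneg (hB0 r r') (sq_nonneg (x r - x r'))]
    refine h1.trans (le_of_eq ?_)
    simp only [Finset.sum_add_distrib]
    have h2 : ∑ r ∈ Om P, ∑ r' ∈ Om P, x r' ^ 2 / 2 * ej P r' r
        = ∑ r ∈ Om P, ∑ r' ∈ Om P, x r ^ 2 / 2 * ej P r r' := Finset.sum_comm
    rw [h2]
    have h3 : ∑ r ∈ Om P, ∑ r' ∈ Om P, x r ^ 2 / 2 * ej P r r'
        = ∑ r ∈ Om P, x r ^ 2 / 2 * q := by
      refine Finset.sum_congr rfl fun r hr => ?_
      rw [← Finset.mul_sum, hBsum r hr]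
    rw [h3, Finset.mul_sum, ← Finset.sum_add_distrib]
    refine Finset.sum_congr rfl fun r _ => ?_
    ring
  have hsq : ∀ x : Submodule F V → ℝ, ∑ r ∈ Om P, ∑ r' ∈ Om P, x r * x r'
      = (∑ r ∈ Om P, x r) ^ 2 := by
    intro x
    rw [sq, Finset.sum_mul_sum]
  have main := cross_abs 𝓐 𝓖 (above (Gr F V k) P) (avoid (Gr F V k) P) (Om P) ei
    (fun A hA => by rw [mem_above]; exact ⟨h𝓐 hA, hPA A hA⟩)
    (fun A hA => by rw [mem_avoid]; exact ⟨h𝓖 hA, hPG A hA⟩)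
    (q * D2) D1 (br q k - 1) (br q k) (by positivity) hp1.le
    (by
      intro x hx
      rw [gram]
      have h1 : ∑ r ∈ Om P, ∑ r' ∈ Om P, x r * x r' * ∑ j ∈ above (Gr F V k) P, ei r j * ei r' j
          = D3 * ∑ r ∈ Om P, ∑ r' ∈ Om P, x r * x r'
            + (D2 - D3) * ∑ r ∈ Om P, ∑ r' ∈ Om P, x r * x r' * ej P r r' := by
        simp only [Finset.mul_sum, ← Finset.sum_add_distrib]
        refine Finset.sum_congr rfl fun r hr => Finset.sum_congr rfl fun r' hr' => ?_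
        rw [← Finset.mul_sum]
        simp only [ei_mul]
        rw [sum_ei_above, hr1 r hr r' hr']
        ring
      rw [h1, hsq, hx]
      have h2 := hBup x
      have h3 := hBpsd x
      have h4 : 0 ≤ ∑ r ∈ Om P, x r ^ 2 := Finset.sum_nonneg fun r _ => sq_nonneg _
      calc D3 * 0 ^ 2 + (D2 - D3) * ∑ r ∈ Om P, ∑ r' ∈ Om P, x r * x r' * ej P r r'
          ≤ D2 * ∑ r ∈ Om P, ∑ r' ∈ Om P, x r * x r' * ej P r r' := by nlinarith
        _ ≤ D2 * (q * ∑ r ∈ Om P, x r ^ 2) := mul_le_mul_of_nonneg_left h2 hp2.le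
        _ = q * D2 * ∑ r ∈ Om P, x r ^ 2 := by ring)
    (by
      intro x hx
      rw [gram]
      have h1 : ∑ r ∈ Om P, ∑ r' ∈ Om P, x r * x r' * ∑ j ∈ avoid (Gr F V k) P, ei r j * ei r' j
          = (D1 - D2) * ∑ r ∈ Om P, x r ^ 2 + (D2 - D3) * ∑ r ∈ Om P, ∑ r' ∈ Om P, x r * x r'
            - (D2 - D3) * ∑ r ∈ Om P, ∑ r' ∈ Om P, x r * x r' * ej P r r' := by
        have h0 : ∑ r ∈ Om P, x r ^ 2
            = ∑ r ∈ Om P, ∑ r' ∈ Om P, x r * x r' * (if r = r' then 1 else 0) := by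
          refine Finset.sum_congr rfl fun r hr => ?_
          simp only [mul_ite, mul_one, mul_zero]
          rw [Finset.sum_ite_eq, if_pos hr, sq]
        rw [h0]
        simp only [Finset.mul_sum, ← Finset.sum_add_distrib, ← Finset.sum_sub_distrib]
        refine Finset.sum_congr rfl fun r hr => Finset.sum_congr rfl fun r' hr' => ?_
        rw [← Finset.mul_sum]
        simp only [ei_mul]
        rw [sum_ei_avoid, hr2 r hr r' hr']
        ring
      rw [h1, hsq, hx]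
      have h3 := hBpsd x
      have h4 : 0 ≤ ∑ r ∈ Om P, x r ^ 2 := Finset.sum_nonneg fun r _ => sq_nonneg _
      nlinarith [mul_nonneg (sub_nonneg.2 h32) h3, mul_nonneg hp2.le h4])
    (by
      intro A hA
      have hAk : finrank F A = k := by simpa using h𝓐 hA
      rw [pts_card_sub hP hq P A hPm (hPA A hA), hAk])
    (by
      intro A hA
      have hAk : finrank F A = k := by simpa using h𝓖 hA
      rw [pts_card_full hP hq P A (hPG A hA), hAk])
    (by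
      have h1 := pts_card_sub hP hq P ⊤ hPm le_top
      rw [finrank_top, hn] at h1
      have h2 : ∑ R ∈ Om P, ei R ⊤ = ((Om P).card : ℝ) := by simp [ei]
      rw [← h2, h1]
      exact arith hq2 hnk (by omega) hbr1)
    (by
      have h1 := pts_card_sub hP hq P ⊤ hPm le_top
      rw [finrank_top, hn] at h1
      have h2 : ∑ R ∈ Om P, ei R ⊤ = ((Om P).card : ℝ) := by simp [ei]
      rw [← h2, h1]
      have h3 : br q n = br q (n - 1) + (q : ℝ) ^ (n - 1) := by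
        have := hbrs (n - 1)
        rwa [Nat.sub_add_cancel (by omega)] at this
      have h4 : 0 ≤ br q (n - 1) := Finset.sum_nonneg fun i _ => by positivity
      have h5 : (q : ℝ) ^ 1 ≤ (q : ℝ) ^ (n - 1) := pow_le_pow_right₀ (by linarith) (by omega)
      rw [h3]
      linarith)
    (by
      intro A hA G hG
      obtain ⟨R, hR1, hR2⟩ := exists_pt_le (hcr A hA G hG)
      have hRA : R ≤ A := hR2.trans inf_le_left
      have hRG : R ≤ G := hR2.trans inf_le_right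
      have hRm : R ∈ Om P := by
        rw [mem_Om]
        refine ⟨hR1, ?_⟩
        rintro rfl
        exact hPG G hG hRG
      have h0 : ∀ r ∈ Om P, 0 ≤ ei r A * ei r G := by
        intro r _
        unfold ei
        split_ifs <;> norm_num
      calc (1 : ℝ) = ei R A * ei R G := by simp [ei, hRA, hRG]
        _ ≤ _ := Finset.single_le_sum h0 hRm)
  refine main.trans (le_of_eq ?_)
  ring

end Pool.Agent.K1H87.HP
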